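import Pool.Agent.R669.Dg.Mit

/-!
# HNN extensions of finite powers along diagonal subgroups
-/

set_option autoImplicit false

namespace Pool.Agent.R669.Dg

open Pool.Agent.Y110.FJ
open Pool.Agent.R779.FJ (MH)

/-- the homomorphism `G^k → G^n` given by `α`: the coordinate `i` of the image of `x` is `x_j` if
`α i = j`, and `1` if `α i` is undefined -/
def dg (G : Type) [Group G] {n k : ℕ} (α : Fin n → Option (Fin k)) :
    (Fin k → G) →* (Fin n → G) where
  toFun x i := (α i).elim 1 x
  map_one' := by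
    funext i
    cases α i <;> simp
  map_mul' x y := by
    funext i
    cases h : α i <;> simp [h]

theorem dg_apply {G : Type} [Group G] {n k : ℕ} (α : Fin n → Option (Fin k)) (x : Fin k → G)
    (i : Fin n) : dg G α x i = (α i).elim 1 x := rfl

theorem dg_inj {G : Type} [Group G] {n k : ℕ} (α : Fin n → Option (Fin k))
    (hα : ∀ j, ∃ i, α i = some j) : Function.Injective (dg G α) := by
  intro x y h
  funext j
  obtain ⟨i, hi⟩ := hα j
  have h1 := congrFun h i
  rw [dg_apply, dg_apply, hi] at h1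
  exact h1

section fib

variable {n k : ℕ} (α : Fin n → Option (Fin k))

/-- the domain -/
def DD : Set (Fin n × ℕ) := {p | (α p.1).isSome}

/-- the value -/
def val (p : DD α) : Fin k := (α p.1.1).get p.2

theorem val_spec (p : DD α) : α p.1.1 = some (val α p) := (Option.some_get p.2).symm

theorem fib_inf (hα : ∀ j, ∃ i, α i = some j) (j : Fin k) : Infinite {p : DD α // val α p = j} := by
  obtain ⟨i, hi⟩ := hα j
  have h1 : ∀ m : ℕ, (i, m) ∈ DD α := fun m => by
    show (α i).isSome
    rw [hi]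
    rfl
  have h2 : ∀ m : ℕ, val α ⟨(i, m), h1 m⟩ = j := fun m => by
    have h3 := val_spec α ⟨(i, m), h1 m⟩
    have h4 : α i = some (val α ⟨(i, m), h1 m⟩) := h3
    rw [hi] at h4
    exact (Option.some.inj h4).symm
  refine Infinite.of_injective (fun m : ℕ => (⟨⟨(i, m), h1 m⟩, h2 m⟩ : {p : DD α // val α p = j})) ?_
  intro a b h
  have h3 := congrArg (fun z => z.1.1.2) h
  exact h3

theorem exists_tau (hα : ∀ j, ∃ i, α i = some j) (β : Fin n → Option (Fin k))
    (hβ : ∀ j, ∃ i, β i = some j) : ∃ τ : DD α ≃ DD β, ∀ u, val β (τ u) = val α u := by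
  have h1 : ∀ j, Nonempty ({p : DD α // val α p = j} ≃ {p : DD β // val β p = j}) := by
    intro j
    have h2 := fib_inf α hα j
    have h3 := fib_inf β hβ j
    obtain ⟨d2⟩ := nonempty_denumerable {p : DD α // val α p = j}
    obtain ⟨d3⟩ := nonempty_denumerable {p : DD β // val β p = j}
    exact ⟨Denumerable.equiv₂ _ _⟩
  let e : ∀ j, {p : DD α // val α p = j} ≃ {p : DD β // val β p = j} := fun j => (h1 j).some
  let τ : DD α ≃ DD β := ((Equiv.sigmaFiberEquiv (val α)).symm.trans
    (Equiv.sigmaCongrRight e)).trans (Equiv.sigmaFiberEquiv (val β))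
  refine ⟨τ, fun u => ?_⟩
  have h4 : τ u = (e (val α u) ⟨u, rfl⟩).1 := rfl
  rw [h4]
  exact (e (val α u) ⟨u, rfl⟩).2

end fib

theorem t_fin (hcrit : S_CRIT) (hperm : S_PERM) (C : ∀ (G : Type) [Group G], Prop)
    (hC : ClosedE C) (G : Type) [Group G] (hG : C G) (n : ℕ) (I : Type) (k : I → ℕ)
    (α β : ∀ l, Fin n → Option (Fin (k l))) (hα : ∀ l j, ∃ i, α l i = some j)
    (hβ : ∀ l j, ∃ i, β l i = some j) :
    C (MH (B := fun l => Fin (k l) → G) (fun l => dg G (α l)) (fun l => dg G (β l))) := by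
  choose τ hτ using fun l => exists_tau (α l) (hα l) (β l) (hβ l)
  let e : (Fin n → G) →* (Fin n × ℕ → G) :=
    { toFun := fun m p => m p.1
      map_one' := rfl
      map_mul' := fun _ _ => rfl }
  have h1 : (Set.range (1 : Fin n × ℕ → G)).Finite :=
    Set.Finite.subset (Set.finite_singleton 1) (by rintro _ ⟨x, rfl⟩; rfl)
  refine t_diag hcrit hperm C hC hG e ?_ ?_ (fun l => dg G (α l)) (fun l => dg G (β l))
    (fun l => dg_inj (α l) (hα l)) (fun l => DD (α l)) (fun l => DD (β l)) τ (fun _ => 1)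
    (fun _ => h1) ?_ ?_ ?_
  · intro m
    refine Set.Finite.subset (Set.finite_range m) ?_
    rintro _ ⟨p, rfl⟩
    exact ⟨p.1, rfl⟩
  · intro a b h
    funext i
    exact congrFun h (i, 0)
  · intro l b x hx
    show (α l x.1).elim 1 b = 1
    have h2 : ¬ (α l x.1).isSome := hx
    cases h3 : α l x.1 with
    | none => rfl
    | some j =>
      rw [h3] at h2
      exact absurd rfl h2
  · intro l b x hx
    show (β l x.1).elim 1 b = 1
    have h2 : ¬ (β l x.1).isSome := hx
    cases h3 : β l x.1 with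
    | none => rfl
    | some j =>
      rw [h3] at h2
      exact absurd rfl h2
  · intro l b v
    show (β l v.1.1).elim 1 b = 1 * (α l ((τ l).symm v).1.1).elim 1 b * 1⁻¹
    rw [val_spec (β l) v, val_spec (α l) ((τ l).symm v), ← hτ l ((τ l).symm v),
      Equiv.apply_symm_apply]
    simp

end Pool.Agent.R669.Dg
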