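import Pool.Agent.R669.Dg.Main

/-!
# Multiple HNN extensions along partial permutations, mitotic groups
-/

set_option autoImplicit false

namespace Pool.Agent.R669.Dg

open Pool.Agent.Y110.FJ
open Pool.Agent.Y462.SS (Closed Wr)
open Pool.Agent.R779.FJ (MH)

section hnn

variable {X H : Type} [Group H]

/-- functions on `X` as functions on `X ⊕ X × ℕ` -/
def up (f : X → H) : X ⊕ (X × ℕ) → H := Sum.elim f (fun _ => 1)

theorem up_mem {f : X → H} (hf : (Set.range f).Finite) : up f ∈ Fv (X ⊕ (X × ℕ)) H := by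
  refine Set.Finite.subset (hf.union (Set.finite_singleton 1)) ?_
  rintro _ ⟨x | x, rfl⟩
  · exact Or.inl ⟨x, rfl⟩
  · exact Or.inr rfl

/-- the semidirect product in which everything is realized -/
abbrev PP (X H : Type) [Group H] {I : Type} (σ : I → Equiv.Perm (X ⊕ (X × ℕ))) : Type :=
  Fv (X ⊕ (X × ℕ)) H ⋊[fvAut (X ⊕ (X × ℕ)) H (FreeGroup.lift σ)] FreeGroup I

/-- the embedding of the functions -/
def inF {I : Type} (σ : I → Equiv.Perm (X ⊕ (X × ℕ))) {M : Type} [Group M] (e : M →* (X → H))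
    (he : ∀ m, (Set.range (e m)).Finite) : M →* PP X H σ where
  toFun m := SemidirectProduct.inl ⟨up (e m), up_mem (he m)⟩
  map_one' := by
    rw [← map_one SemidirectProduct.inl]
    congr 1
    apply Subtype.ext
    funext x
    cases x with
    | inl x =>
      show e 1 x = 1
      rw [map_one]
      rfl
    | inr x => rfl
  map_mul' a b := by
    rw [← map_mul]
    congr 1
    apply Subtype.ext
    funext x
    cases x with
    | inl x =>
      show e (a * b) x = e a x * e b x
      rw [map_mul]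
      rfl
    | inr x => exact (mul_one 1).symm

theorem inF_inj {I : Type} (σ : I → Equiv.Perm (X ⊕ (X × ℕ))) {M : Type} [Group M]
    (e : M →* (X → H)) (he : ∀ m, (Set.range (e m)).Finite) (hinj : Function.Injective e) :
    Function.Injective (inF σ e he) := by
  intro a b h
  have h1 := SemidirectProduct.inl_injective h
  have h2 : up (e a) = up (e b) := congrArg Subtype.val h1
  apply hinj
  funext x
  exact congrFun h2 (Sum.inl x)

/-- conjugation in `PP` realizes `tr` -/
theorem conj_tr {I : Type} {U V : I → Set X} (τ : ∀ i, U i ≃ V i) (i : I) (h : X → H)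
    (hh : (Set.range h).Finite) {M : Type} [Group M]
    (e : M →* (X → H)) (he : ∀ m, (Set.range (e m)).Finite)
    (a b : M) (ha : ∀ x, x ∉ U i → e a x = 1) (hb : ∀ x, x ∉ V i → e b x = 1)
    (hab : ∀ v : V i, e b v = h v * e a ((τ i).symm v) * (h v)⁻¹) :
    (⟨⟨up h, up_mem hh⟩, FreeGroup.of i⟩ : PP X H (fun i => ext (τ i))) *
      inF _ e he a * (⟨⟨up h, up_mem hh⟩, FreeGroup.of i⟩ : PP X H (fun i => ext (τ i)))⁻¹ =
      inF _ e he b := by
  set σ : I → Equiv.Perm (X ⊕ (X × ℕ)) := fun i => ext (τ i) with hσ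
  set g : PP X H σ := ⟨⟨up h, up_mem hh⟩, FreeGroup.of i⟩ with hg
  have hgr : g.right = FreeGroup.of i := rfl
  have hρ : FreeGroup.lift σ g.right = ext (τ i) := by rw [hgr, FreeGroup.lift_apply_of]
  apply SemidirectProduct.ext
  · apply Subtype.ext
    funext y
    obtain ⟨ω, rfl⟩ : ∃ ω, y = FreeGroup.lift σ g.right ω := ⟨(FreeGroup.lift σ g.right)⁻¹ y, by simp⟩
    rw [conj_left (FreeGroup.lift σ) g (inF σ e he a) rfl ω]
    have hω : ω = (ext (τ i))⁻¹ (ext (τ i) ω) := by simp
    rw [hρ]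
    show up h (ext (τ i) ω) * up (e a) ω * (up h (ext (τ i) ω))⁻¹ = up (e b) (ext (τ i) ω)
    generalize hy : ext (τ i) ω = y at hω
    by_cases hv : ∃ v : V i, y = Sum.inl v.1
    · obtain ⟨v, rfl⟩ := hv
      rw [ext_symm_inl] at hω
      rw [hω]
      exact (hab v).symm
    · have hv' : ∀ v : V i, y ≠ Sum.inl v.1 := fun v hv0 => hv ⟨v, hv0⟩
      have h1 : up (e a) ω = 1 := by
        have h2 := ext_out (τ i) y hv'
        rw [← hω] at h2
        cases ω with
        | inl x =>
          refine ha x fun hx => ?_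
          exact h2 ⟨x, hx⟩ rfl
        | inr x => rfl
      have h3 : up (e b) y = 1 := by
        cases y with
        | inl x =>
          refine hb x fun hx => ?_
          exact hv' ⟨x, hx⟩ rfl
        | inr x => rfl
      rw [h1, h3, mul_one, mul_inv_cancel]
  · show g.right * 1 * (g⁻¹).right = 1
    rw [SemidirectProduct.inv_right, mul_one, mul_inv_cancel]

theorem pp_mem (hcrit : S_CRIT) (C : ∀ (G : Type) [Group G], Prop) (hC : ClosedE C) (hH : C H)
    {I : Type} (σ : I → Equiv.Perm (X ⊕ (X × ℕ))) : C (PP X H σ) :=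
  fv_semi hcrit C hC hH _ (Pool.Agent.R779.FJ.free_mem hC I) _

theorem t_diag (hcrit : S_CRIT) (hperm : S_PERM) (C : ∀ (G : Type) [Group G], Prop)
    (hC : ClosedE C) (hH : C H) {M : Type} [Group M]
    (e : M →* (X → H)) (he : ∀ m, (Set.range (e m)).Finite) (hinj : Function.Injective e)
    {I : Type} {B : I → Type} [∀ i, Group (B i)] (α β : ∀ i, B i →* M)
    (hα : ∀ i, Function.Injective (α i)) (U V : I → Set X)
    (τ : ∀ i, U i ≃ V i) (h : I → X → H) (hh : ∀ i, (Set.range (h i)).Finite)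
    (hU : ∀ i b x, x ∉ U i → e (α i b) x = 1) (hV : ∀ i b x, x ∉ V i → e (β i b) x = 1)
    (hφ : ∀ i b (v : V i), e (β i b) v = h i v * e (α i b) ((τ i).symm v) * (h i v)⁻¹) :
    C (MH α β) := by
  refine Pool.Agent.R779.FJ.t_mh hperm hC α β hα (PP X H (fun i => ext (τ i)))
    (pp_mem hcrit C hC hH _)
    (inF _ e he) (inF_inj _ e he hinj) (fun i => ⟨⟨up (h i), up_mem (hh i)⟩, FreeGroup.of i⟩) ?_
  intro i b
  exact conj_tr τ i (h i) (hh i) e he (α i b) (β i b) (hU i b) (hV i b) (hφ i b)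

end hnn

end Pool.Agent.R669.Dg
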