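import Pool.Agent.R669.Bw.App
import Pool.Agent.R779.FJ.MhHalo

/-!
# Multiple HNN extensions of groups of functions with finitely many values
-/

set_option autoImplicit false

namespace Pool.Agent.R669.Dg

open Pool.Agent.Y110.FJ
open Pool.Agent.Y462.SS (Closed Wr)
open Pool.Agent.R779.FJ (MH)

section fv

variable (X H : Type) [Group H]

/-- the functions with finitely many values -/
def Fv : Subgroup (X → H) where
  carrier := {f | (Set.range f).Finite}
  mul_mem' := by
    intro f g hf hg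
    refine Set.Finite.subset (hf.mul hg) ?_
    rintro _ ⟨x, rfl⟩
    exact ⟨f x, ⟨x, rfl⟩, g x, ⟨x, rfl⟩, rfl⟩
  one_mem' := by
    refine Set.Finite.subset (Set.finite_singleton (1 : H)) ?_
    rintro _ ⟨x, rfl⟩
    rfl
  inv_mem' := by
    intro f hf
    refine Set.Finite.subset hf.inv ?_
    rintro _ ⟨x, rfl⟩
    show (f⁻¹ x)⁻¹ ∈ Set.range f
    exact ⟨x, by simp⟩

theorem mem_Fv {X H : Type} [Group H] {f : X → H} : f ∈ Fv X H ↔ (Set.range f).Finite := Iff.rfl

theorem comp_mem {X Y H : Type} [Group H] {f : X → H} (hf : f ∈ Fv X H) (u : Y → X) :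
    (fun y => f (u y)) ∈ Fv Y H :=
  Set.Finite.subset hf (by rintro _ ⟨y, rfl⟩; exact ⟨_, rfl⟩)

/-- the action of permutations on the functions with finitely many values -/
def fvAut {Q : Type} [Group Q] (ρ : Q →* Equiv.Perm X) : Q →* MulAut (Fv X H) where
  toFun q :=
    { toFun := fun f => ⟨fun x => f.1 ((ρ q)⁻¹ x), comp_mem f.2 _⟩
      invFun := fun f => ⟨fun x => f.1 (ρ q x), comp_mem f.2 _⟩
      left_inv := fun f => by
        apply Subtype.ext
        funext x
        simp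
      right_inv := fun f => by
        apply Subtype.ext
        funext x
        simp
      map_mul' := fun f g => rfl }
  map_one' := by
    apply MulEquiv.ext
    intro f
    apply Subtype.ext
    funext x
    simp
  map_mul' q r := by
    apply MulEquiv.ext
    intro f
    apply Subtype.ext
    funext x
    simp [mul_inv_rev, Equiv.Perm.mul_apply]

variable {X H}

theorem fvAut_apply {Q : Type} [Group Q] (ρ : Q →* Equiv.Perm X) (q : Q) (f : Fv X H) (x : X) :
    (fvAut X H ρ q f).1 x = f.1 ((ρ q)⁻¹ x) := rfl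

/-- conjugation in the semidirect product, on functions -/
theorem conj_left {Q : Type} [Group Q] (ρ : Q →* Equiv.Perm X) (g x : Fv X H ⋊[fvAut X H ρ] Q)
    (hx : x.right = 1) (ω : X) : (g * x * g⁻¹).left.1 (ρ g.right ω) =
      g.left.1 (ρ g.right ω) * x.left.1 ω * (g.left.1 (ρ g.right ω))⁻¹ := by
  rw [SemidirectProduct.mul_left, SemidirectProduct.mul_left, SemidirectProduct.mul_right, hx,
    SemidirectProduct.inv_left, mul_one]
  show g.left.1 (ρ g.right ω) * (fvAut X H ρ g.right x.left).1 (ρ g.right ω) *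
    (fvAut X H ρ g.right (fvAut X H ρ g.right⁻¹ g.left⁻¹)).1 (ρ g.right ω) = _
  have e1 : (ρ g.right)⁻¹ (ρ g.right ω) = ω := by simp
  have e2 : ρ g.right ((ρ g.right)⁻¹ (ρ g.right ω)) = ρ g.right ω := by simp
  rw [fvAut_apply, fvAut_apply, fvAut_apply, map_inv, inv_inv, e2, e1]
  rfl

theorem fv_semi (hcrit : S_CRIT) (C : ∀ (G : Type) [Group G], Prop) (hC : ClosedE C)
    (hH : C H) (Q : Type) [Group Q] (hQ : C Q) (ρ : Q →* Equiv.Perm X) :
    C (Fv X H ⋊[fvAut X H ρ] Q) := by
  have hsurj : Function.Surjective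
      (SemidirectProduct.rightHom : Fv X H ⋊[fvAut X H ρ] Q →* Q) :=
    SemidirectProduct.rightHom_surjective
  refine Pool.Agent.R669.Bw.main hcrit C hC (Fv X H ⋊[fvAut X H ρ] Q) X H hH
    (SemidirectProduct.rightHom).ker ?_
    { toFun := fun x => x.1.left.1
      map_one' := rfl
      map_mul' := ?_ } ?_ ?_ ?_
  · exact hC.base.of_injective _ _
      (QuotientGroup.quotientKerEquivOfSurjective _ hsurj).toMonoidHom
      (MulEquiv.injective _) hQ
  · intro x y
    have hx : x.1.right = 1 := x.2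
    funext ω
    show (x.1 * y.1).left.1 ω = x.1.left.1 ω * y.1.left.1 ω
    rw [SemidirectProduct.mul_left, hx, map_one]
    rfl
  · intro x y hxy
    apply Subtype.ext
    apply SemidirectProduct.ext
    · exact Subtype.ext hxy
    · exact (x.2 : x.1.right = 1).trans (y.2 : y.1.right = 1).symm
  · intro x
    exact x.1.left.2
  · intro g
    refine ⟨ρ g.right, fun ω => g.left.1 (ρ g.right ω), comp_mem g.left.2 _, ?_⟩
    intro x hx ω
    exact conj_left ρ g x hx ω

theorem fv_tf {Q : Type} [Group Q] (ρ : Q →* Equiv.Perm X)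
    (hB : ∀ g : H, ∀ k : ℕ, 0 < k → g ^ k = 1 → g = 1)
    (hQ : ∀ g : Q, ∀ k : ℕ, 0 < k → g ^ k = 1 → g = 1) :
    ∀ g : Fv X H ⋊[fvAut X H ρ] Q, ∀ k : ℕ, 0 < k → g ^ k = 1 → g = 1 := by
  intro g k hk h
  have h1 : g.right = 1 := by
    refine hQ _ k hk ?_
    have : SemidirectProduct.rightHom (g ^ k) = (1 : Q) := by rw [h, map_one]
    rw [map_pow] at this
    exact this
  have h2 : ∀ (m : ℕ), (g ^ m).left = g.left ^ m ∧ (g ^ m).right = 1 := by
    intro m
    induction m with
    | zero => exact ⟨by rw [pow_zero, pow_zero]; rfl, by rw [pow_zero]; rfl⟩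
    | succ m ih =>
      constructor
      · rw [pow_succ, SemidirectProduct.mul_left, ih.1, ih.2, map_one, pow_succ]
        rfl
      · rw [pow_succ, SemidirectProduct.mul_right, ih.2, h1, mul_one]
  apply SemidirectProduct.ext
  · apply Subtype.ext
    funext ω
    refine hB _ k hk ?_
    have h3 := (h2 k).1
    rw [h] at h3
    have h4 : (g.left ^ k : Fv X H).1 ω = 1 := by
      rw [← h3]
      rfl
    exact h4
  · exact h1

end fv

section ext

variable {X : Type}

theorem absorb (U : Set X) : Nonempty ((↥Uᶜ ⊕ (X × ℕ)) ≃ X × ℕ) := by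
  refine Function.Embedding.antisymm
    ⟨Sum.elim (fun x => (x.1, 0)) (fun p => (p.1, p.2 + 1)), ?_⟩ ⟨Sum.inr, Sum.inr_injective⟩
  rintro (⟨x, hx⟩ | ⟨x, n⟩) (⟨y, hy⟩ | ⟨y, m⟩) h
  · simp only [Sum.elim_inl, Prod.mk.injEq, and_true] at h
    subst h
    rfl
  · simp at h
  · simp at h
  · simp only [Sum.elim_inr, Prod.mk.injEq, add_left_inj] at h
    rw [h.1, h.2]

open Classical in
/-- `X ⊕ X × ℕ` is the union of `U` and `X × ℕ` -/
noncomputable def eU (U : Set X) : X ⊕ (X × ℕ) ≃ U ⊕ (X × ℕ) :=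
  ((Equiv.sumCongr (Equiv.Set.sumCompl U).symm (Equiv.refl _)).trans
    (Equiv.sumAssoc _ _ _)).trans (Equiv.sumCongr (Equiv.refl _) (absorb U).some)

theorem eU_inl (U : Set X) (u : U) : eU U (Sum.inl u.1) = Sum.inl u := by
  classical
  simp [eU, Equiv.Set.sumCompl_symm_apply_of_mem u.2]

theorem eU_symm_inl (U : Set X) (u : U) : (eU U).symm (Sum.inl u) = Sum.inl u.1 := by
  rw [Equiv.symm_apply_eq, eU_inl]

theorem eU_symm_inr (U : Set X) (z : X × ℕ) (x : X) (hx : x ∈ U) :
    (eU U).symm (Sum.inr z) ≠ Sum.inl x := by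
  intro h
  rw [Equiv.symm_apply_eq, eU_inl U ⟨x, hx⟩] at h
  cases h

/-- the extension of a partial bijection to a permutation of `X ⊕ X × ℕ` -/
noncomputable def ext {U V : Set X} (τ : U ≃ V) : Equiv.Perm (X ⊕ (X × ℕ)) :=
  ((eU U).trans (Equiv.sumCongr τ (Equiv.refl _))).trans (eU V).symm

theorem ext_inl {U V : Set X} (τ : U ≃ V) (u : U) : ext τ (Sum.inl u.1) = Sum.inl (τ u).1 := by
  simp [ext, eU_inl, eU_symm_inl]

theorem ext_symm_inl {U V : Set X} (τ : U ≃ V) (v : V) :
    (ext τ)⁻¹ (Sum.inl v.1) = Sum.inl (τ.symm v).1 := by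
  rw [Equiv.Perm.inv_eq_iff_eq, ext_inl, Equiv.apply_symm_apply]

theorem ext_out {U V : Set X} (τ : U ≃ V) (y : X ⊕ (X × ℕ)) (hy : ∀ v : V, y ≠ Sum.inl v.1)
    (u : U) : (ext τ)⁻¹ y ≠ Sum.inl u.1 := by
  intro h
  rw [Equiv.Perm.inv_eq_iff_eq, ext_inl] at h
  exact hy _ h

end ext

end Pool.Agent.R669.Dg
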