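import Pool.Agent.R669.Dg.Hnn

/-!
# Mitotic groups in the class
-/

set_option autoImplicit false

namespace Pool.Agent.R669.Dg

open Pool.Agent.Y110.FJ
open Pool.Agent.Y462.SS (Closed Wr)
open Pool.Agent.R779.FJ (MH)

/-- the finitely generated subgroups have mitoses in `M` -/
def Mitotic (M : Type) [Group M] : Prop :=
  ∀ K : Subgroup M, K.FG → ∃ s d : M, (∀ x ∈ K, ∀ y ∈ K, x * (s * y * s⁻¹) = (s * y * s⁻¹) * x) ∧
    ∀ x ∈ K, d * x * d⁻¹ = x * (s * x * s⁻¹)

section cst

variable {X H : Type} [Group H]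

open Classical in
/-- constant on `W` -/
noncomputable def cst (W : Set X) (h : H) : X → H := fun x => if x ∈ W then h else 1

theorem cst_mem (W : Set X) (h : H) : cst W h ∈ Fv X H := by
  refine Set.Finite.subset (Set.toFinite {h, 1}) ?_
  rintro _ ⟨x, rfl⟩
  unfold cst
  split_ifs
  · exact Or.inl rfl
  · exact Or.inr rfl

end cst

/-- the two partial permutations of `Bool × ℕ` -/
def VV : Bool → Set (Bool × ℕ)
  | false => {p | p.1 = true}
  | true => Set.univ

/-- the domain -/
def UU : Bool → Set (Bool × ℕ) := fun _ => {p | p.1 = false}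

def eB (b : Bool) : {p : Bool × ℕ | p.1 = b} ≃ ℕ where
  toFun p := p.1.2
  invFun n := ⟨(b, n), rfl⟩
  left_inv := by
    rintro ⟨⟨c, n⟩, h⟩
    have : c = b := h
    subst this
    rfl
  right_inv n := rfl

/-- bijections -/
def ττ : ∀ i, UU i ≃ VV i
  | false => (eB false).trans (eB true).symm
  | true => (eB false).trans (Equiv.boolProdNatEquivNat.symm.trans (Equiv.Set.univ _).symm)

/-- the group containing the mitosis of `H` -/
abbrev QQ (H : Type) [Group H] : Type := PP (Bool × ℕ) H (fun i => ext (ττ i))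

section step

variable {H : Type} [Group H]

theorem finFv : ∀ b : Fv (Bool × ℕ) H, (Set.range ((Fv (Bool × ℕ) H).subtype b)).Finite :=
  fun b => b.2

/-- the embedding -/
noncomputable def jj : H →* QQ H :=
  (inF (fun i => ext (ττ i)) (Fv (Bool × ℕ) H).subtype finFv).comp
    { toFun := fun h => ⟨cst {p | p.1 = false} h, cst_mem _ _⟩
      map_one' := by
        apply Subtype.ext
        funext x
        simp [cst]
      map_mul' := fun a b => by
        apply Subtype.ext
        funext x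
        show cst {p : Bool × ℕ | p.1 = false} (a * b) x =
          cst {p : Bool × ℕ | p.1 = false} a x * cst {p : Bool × ℕ | p.1 = false} b x
        unfold cst
        split_ifs <;> simp }

theorem jj_inj : Function.Injective (jj : H →* QQ H) := by
  intro a b h
  have h1 := inF_inj (fun i => ext (ττ i)) (Fv (Bool × ℕ) H).subtype finFv Subtype.val_injective h
  have h2 : cst {p : Bool × ℕ | p.1 = false} a = cst {p : Bool × ℕ | p.1 = false} b :=
    congrArg Subtype.val h1
  have h3 := congrFun h2 (false, 0)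
  simpa [cst] using h3

theorem jj_step : ∃ s d : QQ H, (∀ x y : H, jj x * (s * jj y * s⁻¹) = (s * jj y * s⁻¹) * jj x) ∧
    ∀ x : H, d * jj x * d⁻¹ = jj x * (s * jj x * s⁻¹) := by
  have h1 : (Set.range (1 : Bool × ℕ → H)).Finite :=
    Set.Finite.subset (Set.finite_singleton 1) (by rintro _ ⟨x, rfl⟩; rfl)
  let e : Fv (Bool × ℕ) H →* QQ H := inF (fun i => ext (ττ i)) (Fv (Bool × ℕ) H).subtype finFv
  have hj : ∀ x : H, jj x = e ⟨cst {p : Bool × ℕ | p.1 = false} x, cst_mem _ _⟩ := fun x => rfl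
  have key : ∀ i (x : H), (⟨⟨up 1, up_mem h1⟩, FreeGroup.of i⟩ : QQ H) * jj x *
      (⟨⟨up 1, up_mem h1⟩, FreeGroup.of i⟩ : QQ H)⁻¹ = e ⟨cst (VV i) x, cst_mem _ _⟩ := by
    intro i x
    refine conj_tr ττ i 1 h1 (Fv (Bool × ℕ) H).subtype finFv _ _ ?_ ?_ ?_
    · intro p hp
      show cst {p : Bool × ℕ | p.1 = false} x p = 1
      exact if_neg hp
    · intro p hp
      show cst (VV i) x p = 1
      exact if_neg hp
    · intro v
      show cst (VV i) x v.1 = 1 * cst {p : Bool × ℕ | p.1 = false} x ((ττ i).symm v).1 * 1⁻¹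
      have h2 : cst (VV i) x v.1 = x := if_pos v.2
      have h3 : cst {p : Bool × ℕ | p.1 = false} x ((ττ i).symm v).1 = x :=
        if_pos ((ττ i).symm v).2
      rw [h2, h3, inv_one, one_mul, mul_one]
  refine ⟨⟨⟨up 1, up_mem h1⟩, FreeGroup.of false⟩, ⟨⟨up 1, up_mem h1⟩, FreeGroup.of true⟩, ?_, ?_⟩
  · intro x y
    rw [key, hj, ← map_mul, ← map_mul]
    congr 1
    apply Subtype.ext
    funext p
    show cst {p : Bool × ℕ | p.1 = false} x p * cst {p : Bool × ℕ | p.1 = true} y p =
      cst {p : Bool × ℕ | p.1 = true} y p * cst {p : Bool × ℕ | p.1 = false} x p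
    rcases p with ⟨_ | _, n⟩ <;> simp [cst]
  · intro x
    rw [key, key, hj, ← map_mul]
    congr 1
    apply Subtype.ext
    funext p
    show cst Set.univ x p =
      cst {p : Bool × ℕ | p.1 = false} x p * cst {p : Bool × ℕ | p.1 = true} x p
    rcases p with ⟨_ | _, n⟩ <;> simp [cst]

end step

/-! ### unions of sequences -/

section seq

variable {T : ℕ → Type} [∀ n, Group (T n)] (nx : ∀ n, T n →* T (n + 1))

/-- the maps of the sequence -/
def mp (i j : ℕ) (h : i ≤ j) : T i →* T j where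
  toFun x := Nat.leRecOn (C := T) h (fun {k} y => nx k y) x
  map_one' := by
    induction j, h using Nat.le_induction with
    | base => exact Nat.leRecOn_self _
    | succ n hn ih => rw [Nat.leRecOn_succ hn, ih, map_one]
  map_mul' a b := by
    induction j, h using Nat.le_induction with
    | base => rw [Nat.leRecOn_self, Nat.leRecOn_self, Nat.leRecOn_self]
    | succ n hn ih => rw [Nat.leRecOn_succ hn, Nat.leRecOn_succ hn, Nat.leRecOn_succ hn, ih, map_mul]

theorem mp_self (i : ℕ) (h : i ≤ i) (x : T i) : mp nx i i h x = x :=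
  Nat.leRecOn_self (C := T) (next := fun {k} y => nx k y) x

theorem mp_succ (i : ℕ) (h : i ≤ i + 1) (x : T i) : mp nx i (i + 1) h x = nx i x :=
  Nat.leRecOn_succ' (C := T) (next := fun {k} y => nx k y) x

theorem mp_mp (i j k : ℕ) (h : i ≤ j) (h' : j ≤ k) (x : T i) :
    mp nx j k h' (mp nx i j h x) = mp nx i k (h.trans h') x :=
  (Nat.leRecOn_trans (C := T) h h' (next := fun {k} y => nx k y) x).symm

theorem mp_inj (hnx : ∀ n, Function.Injective (nx n)) (i j : ℕ) (h : i ≤ j) :
    Function.Injective (mp nx i j h) :=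
  Nat.leRecOn_injective (C := T) h (fun {k} y => nx k y) fun n => hnx n

instance : DirectedSystem T (fun i j h => mp nx i j h) where
  map_self := fun i x => mp_self nx i _ x
  map_map := fun k j i h h' x => mp_mp nx i j k h h' x

theorem exists_union {C : ∀ (G : Type) [Group G], Prop} (hC : ClosedE C)
    (hnx : ∀ n, Function.Injective (nx n)) (hT : ∀ n, C (T n)) :
    ∃ (L : Type) (_ : Group L) (inc : ∀ n, T n →* L), C L ∧
      (∀ n x, inc (n + 1) (nx n x) = inc n x) ∧ (∀ n, Function.Injective (inc n)) ∧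
      ∀ y, ∃ n, ∃ x, inc n x = y := by
  let f : ∀ i j (_ : i ≤ j), T i →* T j := fun i j h => mp nx i j h
  let inc : ∀ n, T n →* DirectLimit T f := fun n =>
    { toFun := fun x => (⟦⟨n, x⟩⟧ : DirectLimit T f)
      map_one' := (DirectLimit.one_def (f := f) n).symm
      map_mul' := fun x y => (DirectLimit.mul_def (f := f) n x y).symm }
  have hle : ∀ i j (h : i ≤ j) (x : T i), inc j (mp nx i j h x) = inc i x := fun i j h x =>
    (DirectLimit.eq_of_le (f := f) ⟨i, x⟩ j h).symm
  have hinj : ∀ n, Function.Injective (inc n) := fun n =>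
    DirectLimit.mk_injective f (fun i j h => mp_inj nx hnx i j h) n
  have hsurj : ∀ y : DirectLimit T f, ∃ n, ∃ x, inc n x = y := fun y => by
    obtain ⟨n, x, h⟩ := DirectLimit.exists_eq_mk f y
    exact ⟨n, x, h.symm⟩
  refine ⟨DirectLimit T f, inferInstance, inc, ?_, ?_, hinj, hsurj⟩
  · refine hC.base.colim ℕ (fun i j => ⟨max i j, le_max_left _ _, le_max_right _ _⟩)
      T f (DirectLimit T f) inc (fun i h x => mp_self nx i h x)
      (fun i j k h h' x => mp_mp nx i j k h h' x) hle hsurj ?_ hT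
    intro i x hx
    refine ⟨i, le_rfl, ?_⟩
    exact (mp_self nx i _ x).trans (hinj i (hx.trans (map_one _).symm))
  · intro n x
    rw [← mp_succ nx n (Nat.le_succ n), hle]

end seq

/-! ### the tower -/

/-- groups as a structure -/
structure Gr where
  T : Type
  inst : Group T

instance (A : Gr) : Group A.T := A.inst

/-- the tower -/
noncomputable def tw (G : Gr) : ℕ → Gr
  | 0 => G
  | n + 1 => ⟨QQ (tw G n).T, inferInstance⟩

/-- the steps of the tower -/
noncomputable def nx (G : Gr) (n : ℕ) : (tw G n).T →* (tw G (n + 1)).T :=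
  (jj : (tw G n).T →* QQ (tw G n).T)

theorem nx_inj (G : Gr) (n : ℕ) : Function.Injective (nx G n) :=
  (jj_inj : Function.Injective (jj : (tw G n).T →* QQ (tw G n).T))

theorem nx_step (G : Gr) (n : ℕ) : ∃ s d : (tw G (n + 1)).T,
    (∀ x y, nx G n x * (s * nx G n y * s⁻¹) = (s * nx G n y * s⁻¹) * nx G n x) ∧
    ∀ x, d * nx G n x * d⁻¹ = nx G n x * (s * nx G n x * s⁻¹) :=
  jj_step (H := (tw G n).T)

theorem tw_mem (hcrit : S_CRIT) (C : ∀ (G : Type) [Group G], Prop) (hC : ClosedE C) (G : Gr)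
    (hG : C G.T) (n : ℕ) : C (tw G n).T := by
  induction n with
  | zero => exact hG
  | succ n ih => exact pp_mem hcrit C hC ih _

/-- torsion-free -/
def TF (G : Type) [Group G] : Prop := ∀ g : G, ∀ k : ℕ, 0 < k → g ^ k = 1 → g = 1

theorem free_tf (I : Type) : TF (FreeGroup I) := by
  intro g k hk h
  exact pow_left_injective hk.ne' (h.trans (one_pow k).symm)

theorem tw_tf (G : Gr) (hG : TF G.T) (n : ℕ) : TF (tw G n).T := by
  induction n with
  | zero => exact hG
  | succ n ih => exact fv_tf _ ih (free_tf _)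

theorem mitotic_union {T : ℕ → Type} [∀ n, Group (T n)] (nx : ∀ n, T n →* T (n + 1))
    (hs : ∀ n, ∃ s d : T (n + 1),
      (∀ x y, nx n x * (s * nx n y * s⁻¹) = (s * nx n y * s⁻¹) * nx n x) ∧
      ∀ x, d * nx n x * d⁻¹ = nx n x * (s * nx n x * s⁻¹))
    (L : Type) [Group L] (inc : ∀ n, T n →* L) (hinc : ∀ n x, inc (n + 1) (nx n x) = inc n x)
    (hsurj : ∀ y, ∃ n, ∃ x, inc n x = y) : Mitotic L := by
  have hle : ∀ i j (h : i ≤ j) (x : T i), inc i x ∈ (inc j).range := by
    intro i j h x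
    induction j, h using Nat.le_induction with
    | base => exact ⟨x, rfl⟩
    | succ n hn ih =>
      obtain ⟨y, hy⟩ := ih
      exact ⟨nx n y, by rw [hinc, hy]⟩
  intro K hK
  obtain ⟨S, hS⟩ := hK
  have h1 : ∃ n, ∀ x ∈ S, x ∈ (inc n).range := by
    classical
    clear hS
    induction S using Finset.induction_on with
    | empty => exact ⟨0, fun x hx => absurd hx (Finset.notMem_empty x)⟩
    | insert a S ha ih =>
      obtain ⟨n, hn⟩ := ih
      obtain ⟨m, y, hy⟩ := hsurj a
      refine ⟨max n m, fun x hx => ?_⟩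
      rcases Finset.mem_insert.1 hx with rfl | hx
      · rw [← hy]
        exact hle _ _ (le_max_right n m) y
      · obtain ⟨z, hz⟩ := hn x hx
        rw [← hz]
        exact hle _ _ (le_max_left n m) z
  obtain ⟨n, hn⟩ := h1
  have h2 : K ≤ (inc n).range := by
    rw [← hS, Subgroup.closure_le]
    exact fun x hx => hn x hx
  obtain ⟨s, d, h3, h4⟩ := hs n
  refine ⟨inc (n + 1) s, inc (n + 1) d, ?_, ?_⟩
  · intro x hx y hy
    obtain ⟨x, rfl⟩ := h2 hx
    obtain ⟨y, rfl⟩ := h2 hy
    rw [← hinc n x, ← hinc n y, ← map_inv, ← map_mul, ← map_mul, ← map_mul, ← map_mul]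
    exact congrArg _ (h3 x y)
  · intro x hx
    obtain ⟨x, rfl⟩ := h2 hx
    rw [← hinc n x, ← map_inv, ← map_inv, ← map_mul, ← map_mul, ← map_mul, ← map_mul, ← map_mul]
    exact congrArg _ (h4 x)

theorem tf_union {T : ℕ → Type} [∀ n, Group (T n)] (hT : ∀ n, TF (T n))
    (L : Type) [Group L] (inc : ∀ n, T n →* L) (hinj : ∀ n, Function.Injective (inc n))
    (hsurj : ∀ y, ∃ n, ∃ x, inc n x = y) : TF L := by
  intro g k hk h
  obtain ⟨n, x, rfl⟩ := hsurj g
  have h1 : x ^ k = 1 := hinj n (by rw [map_pow, h, map_one])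
  rw [hT n x k hk h1, map_one]

/-- **every group in the class embeds in a mitotic group in the class** -/
theorem t_mit (hcrit : S_CRIT) (C : ∀ (G : Type) [Group G], Prop) (hC : ClosedE C)
    (G : Type) [Group G] (hG : C G) : ∃ (L : Type) (_ : Group L) (f : G →* L),
      Function.Injective f ∧ C L ∧ Mitotic L ∧ (TF G → TF L) := by
  let A : Gr := ⟨G, inferInstance⟩
  obtain ⟨L, hL, inc, hCL, h1, h2, h3⟩ := exists_union (T := fun n => (tw A n).T) (nx A) hC
    (nx_inj A) (tw_mem hcrit C hC A hG)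
  exact ⟨L, hL, inc 0, h2 0, hCL, mitotic_union (nx A) (nx_step A) L inc h1 h3,
    fun hTF => tf_union (tw_tf A hTF) L inc h2 h3⟩

end Pool.Agent.R669.Dg
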